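import Pool.Agent.Helper50.CSB.Defs

/-! Piece T: the recursion for sweeps, from the left. -/

set_option linter.unusedSectionVars false

namespace H50R

open H45C Equiv MvPolynomial

variable {α : Type*} [DecidableEq α] {β : Type*} [DecidableEq β] {m : ℕ}

/-- transport of words along an embedding -/
noncomputable def mpE (g : β ↪ α) : Wd β →ₗ[ℤ] Wd α := Finsupp.lmapDomain ℤ ℤ (List.map g)

theorem mpE_wd (g : β ↪ α) (u : List β) : mpE g (wd u) = wd (u.map g) := by
  simp [mpE, wd, Finsupp.lmapDomain_apply, Finsupp.mapDomain_single]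

theorem mpE_cns (g : β ↪ α) (q : β) (z : Wd β) : mpE g (cns q z) = cns (g q) (mpE g z) := by
  have h1 : (List.map g ∘ List.cons q) = (List.cons (g q) ∘ List.map g) := by
    funext u
    simp
  simp only [mpE, cns, Finsupp.lmapDomain_apply, ← Finsupp.mapDomain_comp, h1]

theorem swap_emb (g : β ↪ α) (D q x : β) : swap (g D) (g q) (g x) = g (swap D q x) := by
  by_cases h1 : x = D
  · rw [h1, swap_apply_left, swap_apply_left]
  · by_cases h2 : x = q
    · rw [h2, swap_apply_right, swap_apply_right]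
    · rw [swap_apply_of_ne_of_ne h1 h2, swap_apply_of_ne_of_ne (fun h => h1 (g.injective h))
        fun h => h2 (g.injective h)]

theorem mpE_hop (g : β ↪ α) (S : Finset β) (u : List β) (k : ℤ) :
    mpE g (hop S u k) = hop (S.map g) (u.map g) k := by
  induction hn : u.length using Nat.strong_induction_on generalizing u k with
  | _ n ih =>
    cases u with
    | nil =>
      rw [List.map_nil, hop_nil, hop_nil]
      split_ifs
      · rw [mpE_wd, List.map_nil]
      · rw [map_zero]
    | cons q u =>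
      have hlen : u.length < n := by
        rw [← hn, List.length_cons]
        exact Nat.lt_succ_self _
      have hq : (g q ∈ S.map g) ↔ q ∈ S := Finset.mem_map' g
      have e1 : (u.map g).toFinset \ S.map g = (u.toFinset \ S).map g := by
        ext x
        simp only [Finset.mem_sdiff, List.mem_toFinset, List.mem_map, Finset.mem_map]
        constructor
        · rintro ⟨⟨y, hy, rfl⟩, h2⟩
          exact ⟨y, ⟨hy, fun h => h2 ⟨y, h, rfl⟩⟩, rfl⟩
        · rintro ⟨y, ⟨hy, h2⟩, rfl⟩
          refine ⟨⟨y, hy, rfl⟩, ?_⟩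
          rintro ⟨z, hz, h3⟩
          exact h2 (g.injective h3 ▸ hz)
      rw [List.map_cons, hop_cons, hop_cons, map_add, mpE_cns, ih _ hlen u k rfl]
      congr 1
      by_cases h : q ∈ S
      · rw [if_pos h, if_pos (hq.mpr h), e1, Finset.sum_map, map_sum]
        refine Finset.sum_congr rfl fun D _ => ?_
        rw [mpE_cns, ih _ hlen (u.map (swap D q)) (k - 1) (by simp)]
        congr 2
        rw [List.map_map, List.map_map]
        refine List.map_congr_left fun x _ => ?_
        simp only [Function.comp_apply]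
        exact (swap_emb g D q x).symm
      · rw [if_neg h, if_neg (fun h' => h (hq.mp h')), map_zero]

theorem mpE_Hop (g : β ↪ α) (S : Finset β) (k : ℤ) (z : Wd β) :
    mpE g (Hop S k z) = Hop (S.map g) k (mpE g z) := by
  have h : (mpE g).comp (Hop S k) = (Hop (S.map g) k).comp (mpE g) := by
    refine ext_wd _ _ fun u => ?_
    simp only [LinearMap.comp_apply, Hop_wd, mpE_wd, mpE_hop]
  exact congrArg (fun f : Wd β →ₗ[ℤ] Wd α => f z) h

/-- induction over the span of the words with letter set `X` -/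
theorem WS_ind {M : Type*} [AddCommGroup M] {X : Finset α} (f g : Wd α →ₗ[ℤ] M)
    (h : ∀ u : List α, u.Nodup → u.toFinset = X → f (wd u) = g (wd u)) (z : Wd α)
    (hz : z ∈ WS X) : f z = g z := by
  unfold WS at hz
  induction hz using Submodule.span_induction with
  | mem x hx =>
    obtain ⟨u, ⟨hu1, hu2⟩, rfl⟩ := hx
    exact h u hu1 hu2
  | zero => rw [map_zero, map_zero]
  | add y z _ _ hy hz => rw [map_add, map_add, hy, hz]
  | smul a z _ hz => rw [map_smul, map_smul, hz]

theorem Hop_congr_WS {X : Finset α} (S S' : Finset α) (k : ℤ) (h : ∀ x ∈ X, x ∈ S ↔ x ∈ S')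
    (z : Wd α) (hz : z ∈ WS X) : Hop S k z = Hop S' k z := by
  refine WS_ind (Hop S k) (Hop S' k) (fun u _ hu => ?_) z hz
  rw [Hop_wd, Hop_wd]
  exact hop_congr S S' u k fun x hx => h x (by rw [← hu]; exact List.mem_toFinset.2 hx)

theorem Hop_mem_WS {X : Finset α} (S : Finset α) (k : ℤ) (z : Wd α) (hz : z ∈ WS X) :
    Hop S k z ∈ WS X := by
  unfold WS at hz
  induction hz using Submodule.span_induction with
  | mem x hx =>
    obtain ⟨u, ⟨hu1, hu2⟩, rfl⟩ := hx
    rw [Hop_wd, ← hu2]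
    exact hop_mem S u hu1 k
  | zero =>
    rw [map_zero]
    exact Submodule.zero_mem _
  | add y z _ _ hy hz =>
    rw [map_add]
    exact Submodule.add_mem _ hy hz
  | smul a z _ hz =>
    rw [map_smul]
    exact Submodule.smul_mem _ a hz

/-- every word with all letters comes from a permutation -/
theorem exists_om (u : List (Fin (m + 1))) (hu : u.Nodup) (hlen : u.length = m + 1) :
    ∃ x : WG m, om x = u := by
  have hrl : u.reverse.length = m + 1 := by rw [List.length_reverse, hlen]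
  obtain ⟨f, hf⟩ : ∃ f : Fin (m + 1) → Fin (m + 1), f = fun (i : Fin (m + 1)) =>
      u.reverse[(i : ℕ)]'(by rw [hrl]; exact i.isLt) := ⟨_, rfl⟩
  have hof : List.ofFn f = u.reverse := by
    apply List.ext_getElem
    · rw [List.length_ofFn, hrl]
    · intro i h1 h2
      rw [List.getElem_ofFn]
      exact congrFun hf _
  have hinj : Function.Injective f := by
    rw [← List.nodup_ofFn, hof]
    exact List.nodup_reverse.2 hu
  refine ⟨Equiv.ofBijective f (Finite.injective_iff_bijective.1 hinj), ?_⟩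
  unfold om
  rw [List.map_reverse]
  have h1 : (List.finRange (m + 1)).map
      (Equiv.ofBijective f (Finite.injective_iff_bijective.1 hinj)) = List.ofFn f := by
    rw [List.ofFn_eq_map]
    rfl
  rw [h1, hof, List.reverse_reverse]

/-- the case of prefixes -/
theorem Hop_insert_fin (j : ℕ) (hj : j < m + 1) (k : ℤ) (x : WG m) :
    Hop (insert (⟨j, hj⟩ : Fin (m + 1)) (Sj m j)) k (wd (om x)) =
      Hop (Sj m j) k (wd (om x)) +
      (Hop (insert (⟨j, hj⟩ : Fin (m + 1)) (Sj m j)) 1 (Hop (insert ⟨j, hj⟩ (Sj m j)) (k - 1)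
        (wd (om x))) - Hop (Sj m j) 1 (Hop (insert ⟨j, hj⟩ (Sj m j)) (k - 1) (wd (om x)))) := by
  have hSj : Sj m (j + 1) = insert (⟨j, hj⟩ : Fin (m + 1)) (Sj m j) := by
    ext i
    simp only [Sj, Finset.mem_filter, Finset.mem_univ, true_and, Finset.mem_insert, Fin.ext_iff]
    omega
  have h1 : xv m j = hz m (j + 1) 1 - hz m j 1 := by
    have h2 := hz_succ (m := m) j 1
    rw [sub_self, hz_zero_right, mul_one] at h2
    rw [h2]
    ring
  rw [← hSj, ← Om_bas, ← Om_act_hz, hz_succ, map_add, LinearMap.add_apply, map_add, Om_act_hz,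
    act_mul_apply, h1, map_sub, LinearMap.sub_apply, map_sub, Om_act_hz, Om_act_hz, Om_act_hz,
    Om_act_hz]

theorem exists_map (g : β ↪ α) (u : List α) (h : ∀ a ∈ u, ∃ i, g i = a) :
    ∃ u' : List β, u'.map g = u := by
  induction u with
  | nil => exact ⟨[], rfl⟩
  | cons a u ih =>
    obtain ⟨i, hi⟩ := h a List.mem_cons_self
    obtain ⟨u', hu'⟩ := ih fun b hb => h b (List.mem_cons_of_mem a hb)
    exact ⟨i :: u', by rw [List.map_cons, hi, hu']⟩

/-- an enumeration of `X` starting with `A ∩ X` and `l` -/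
theorem exists_enum (A X : Finset α) (l : α) (hl : l ∉ A) (hlX : l ∈ X) :
    ∃ (m j : ℕ) (hj : j < m + 1) (g : Fin (m + 1) ↪ α), X.card = m + 1 ∧
      (∀ x, (∃ i, g i = x) ↔ x ∈ X) ∧ g ⟨j, hj⟩ = l ∧ (Sj m j).map g = A ∩ X := by
  obtain ⟨L₁, hL₁⟩ : ∃ L₁, L₁ = (A ∩ X).toList := ⟨_, rfl⟩
  obtain ⟨L₂, hL₂⟩ : ∃ L₂, L₂ = ((X \ A).erase l).toList := ⟨_, rfl⟩
  obtain ⟨L, hL⟩ : ∃ L, L = L₁ ++ l :: L₂ := ⟨_, rfl⟩
  have hm1 : ∀ x, x ∈ L₁ ↔ x ∈ A ∧ x ∈ X := fun x => by
    rw [hL₁, Finset.mem_toList, Finset.mem_inter]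
  have hm2 : ∀ x, x ∈ L₂ ↔ x ≠ l ∧ x ∈ X ∧ x ∉ A := fun x => by
    rw [hL₂, Finset.mem_toList, Finset.mem_erase, Finset.mem_sdiff]
  have hmL : ∀ x, x ∈ L ↔ x ∈ X := by
    intro x
    rw [hL, List.mem_append, List.mem_cons, hm1, hm2]
    constructor
    · rintro (h | h | h)
      · exact h.2
      · rw [h]
        exact hlX
      · exact h.2.1
    · intro h
      by_cases hA : x ∈ A
      · exact Or.inl ⟨hA, h⟩
      · by_cases hxl : x = l
        · exact Or.inr (Or.inl hxl)
        · exact Or.inr (Or.inr ⟨hxl, h, hA⟩)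
  have hnd : L.Nodup := by
    rw [hL, List.nodup_append]
    refine ⟨by rw [hL₁]; exact Finset.nodup_toList _, ?_, ?_⟩
    · rw [List.nodup_cons]
      exact ⟨fun h => ((hm2 l).1 h).1 rfl, by rw [hL₂]; exact Finset.nodup_toList _⟩
    · intro a ha b hb hab
      subst hab
      rcases List.mem_cons.1 hb with h | h
      · rw [h] at ha
        exact hl ((hm1 l).1 ha).1
      · exact ((hm2 a).1 h).2.2 ((hm1 a).1 ha).1
  have hLX : L.toFinset = X := by
    ext x
    rw [List.mem_toFinset, hmL]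
  have hcard : X.card = L.length := by
    rw [← hLX, List.toFinset_card_of_nodup hnd]
  have hlen : L.length = L₁.length + (L₂.length + 1) := by
    rw [hL, List.length_append, List.length_cons]
  obtain ⟨m, hm⟩ : ∃ m, L.length = m + 1 := ⟨L₁.length + L₂.length, by omega⟩
  have hj : L₁.length < m + 1 := by omega
  obtain ⟨g, hg⟩ : ∃ g : Fin (m + 1) ↪ α, ∀ i : Fin (m + 1), g i = L[(i : ℕ)]'(by
      rw [hm]; exact i.isLt) := by
    refine ⟨⟨fun i => L[(i : ℕ)]'(by rw [hm]; exact i.isLt), fun i i' h => ?_⟩, fun i => rfl⟩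
    exact Fin.ext ((hnd.getElem_inj_iff).1 h)
  refine ⟨m, L₁.length, hj, g, by rw [hcard, hm], fun x => ?_, ?_, ?_⟩
  · rw [← hmL, List.mem_iff_getElem]
    constructor
    · rintro ⟨i, hi⟩
      exact ⟨i, by rw [hm]; exact i.isLt, by rw [← hg]; exact hi⟩
    · rintro ⟨i, hi, h⟩
      exact ⟨⟨i, by rw [← hm]; exact hi⟩, by rw [hg]; exact h⟩
  · rw [hg]
    simp only [hL]
    rw [List.getElem_append_right (le_refl _)]
    simp
  · ext x
    rw [Finset.mem_map, Finset.mem_inter, ← hm1, List.mem_iff_getElem]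
    constructor
    · rintro ⟨i, hi, h⟩
      have hi' : (i : ℕ) < L₁.length := by
        rw [Sj, Finset.mem_filter] at hi
        exact hi.2
      refine ⟨i, hi', ?_⟩
      rw [← h, hg]
      simp only [hL]
      rw [List.getElem_append_left hi']
    · rintro ⟨i, hi, h⟩
      refine ⟨⟨i, by omega⟩, ?_, ?_⟩
      · rw [Sj, Finset.mem_filter]
        exact ⟨Finset.mem_univ _, hi⟩
      · rw [hg]
        simp only [hL]
        rw [List.getElem_append_left hi]
        exact h

/-- Piece T -/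
theorem Hop_insert_left (A : Finset α) (l : α) (hl : l ∉ A) (X : Finset α) (hlX : l ∈ X)
    (z : Wd α) (hz : z ∈ WS X) (k : ℤ) :
    Hop (insert l A) k z = Hop A k z +
      (Hop (insert l A) 1 - Hop A 1) (Hop (insert l A) (k - 1) z) := by
  obtain ⟨m, j, hj, g, hcard, hgX, hgl, hgA⟩ := exists_enum A X l hl hlX
  have hA : ∀ x ∈ X, x ∈ A ↔ x ∈ (Sj m j).map g := fun x hx => by
    rw [hgA, Finset.mem_inter]
    exact ⟨fun h => ⟨h, hx⟩, fun h => h.1⟩
  have hlA : ∀ x ∈ X, x ∈ insert l A ↔ x ∈ (insert (⟨j, hj⟩ : Fin (m + 1)) (Sj m j)).map g := by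
    intro x hx
    rw [Finset.map_insert, Finset.mem_insert, Finset.mem_insert, hgl, hA x hx]
  refine WS_ind (Hop (insert l A) k)
    (Hop A k + (Hop (insert l A) 1 - Hop A 1).comp (Hop (insert l A) (k - 1)))
    (fun u hu huX => ?_) z hz
  have huWS : wd u ∈ WS X := Submodule.subset_span ⟨u, ⟨hu, huX⟩, rfl⟩
  obtain ⟨u', hu'⟩ := exists_map g u fun a ha => (hgX a).2 (by
    rw [← huX]
    exact List.mem_toFinset.2 ha)
  have hu'nd : u'.Nodup := by
    rw [← hu'] at hu
    exact List.Nodup.of_map g hu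
  have hu'len : u'.length = m + 1 := by
    have h1 : u.length = m + 1 := by
      rw [← hcard, ← huX, List.toFinset_card_of_nodup hu]
    rw [← hu', List.length_map] at h1
    exact h1
  obtain ⟨x, hx⟩ := exists_om u' hu'nd hu'len
  have hwd : wd u = mpE g (wd (om x)) := by rw [mpE_wd, hx, hu']
  have hmem := Hop_mem_WS (insert l A) (k - 1) (wd u) huWS
  rw [LinearMap.add_apply, LinearMap.comp_apply, LinearMap.sub_apply,
    Hop_congr_WS (insert l A) _ k hlA _ huWS, Hop_congr_WS A _ k hA _ huWS,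
    Hop_congr_WS (insert l A) _ 1 hlA _ hmem, Hop_congr_WS A _ 1 hA _ hmem,
    Hop_congr_WS (insert l A) _ (k - 1) hlA _ huWS, hwd, ← mpE_Hop, ← mpE_Hop, ← mpE_Hop,
    ← mpE_Hop, ← mpE_Hop, ← map_sub, ← map_add, Hop_insert_fin j hj k x]

end H50R
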