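import Pool.Agent.Helper50.CSB.Q0

/-! Piece Q1: the first letters of sweeps. -/

set_option linter.unusedSectionVars false

namespace H50R

open H45C Equiv MvPolynomial

variable {α : Type*} [DecidableEq α]

theorem pr_apply (E : α) (z : Wd α) (u : List α) : pr E z u = z (E :: u) := rfl

theorem cns_apply_self (F : α) (z : Wd α) (u : List α) : cns F z (F :: u) = z u := by
  unfold cns
  rw [Finsupp.lmapDomain_apply]
  exact Finsupp.mapDomain_apply List.cons_injective z u

theorem cns_apply_ne {E F : α} (h : E ≠ F) (z : Wd α) (u : List α) : cns F z (E :: u) = 0 := by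
  unfold cns
  rw [Finsupp.lmapDomain_apply]
  refine Finsupp.mapDomain_notin_range _ _ ?_
  rintro ⟨v, hv⟩
  exact h (List.cons_eq_cons.1 hv).1.symm

theorem pr_cns (E F : α) (z : Wd α) : pr E (cns F z) = if E = F then z else 0 := by
  ext u
  rw [pr_apply]
  split_ifs with h
  · rw [h, cns_apply_self]
  · rw [cns_apply_ne h, Finsupp.zero_apply]

theorem pr_nil (E : α) : pr E (wd ([] : List α)) = 0 := by
  ext u
  rw [pr_apply, Finsupp.zero_apply]
  unfold wd
  rw [Finsupp.single_apply, if_neg]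
  exact fun h => List.cons_ne_nil _ _ h.symm

theorem pr_wd_cons (E q : α) (u : List α) : pr E (wd (q :: u)) = if E = q then wd u else 0 := by
  rw [← cns_wd, pr_cns]

theorem WN_pr (E : α) {z : Wd α} (hz : WN z) : WN (pr E z) := fun u => by
  rw [pr_apply]
  exact hz _

theorem pr_mem {X : Finset α} {E : α} (hE : E ∈ X) {z : Wd α} (hz : z ∈ WS X) :
    pr E z ∈ WS (X.erase E) := by
  refine WS_induction (p := fun z => pr E z ∈ WS (X.erase E)) hz ?_ ?_ ?_ ?_
  · intro u hu hX
    rcases u with _ | ⟨q, u⟩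
    · rw [pr_nil]
      exact Submodule.zero_mem _
    · rw [pr_wd_cons]
      split_ifs with h
      · refine wd_mem _ (List.nodup_cons.1 hu).2 ?_
        rw [← hX, List.toFinset_cons, h, Finset.erase_insert]
        intro h1
        exact (List.nodup_cons.1 hu).1 (List.mem_toFinset.1 h1)
      · exact Submodule.zero_mem _
  · rw [map_zero]
    exact Submodule.zero_mem _
  · intro y z hy hz
    rw [map_add]
    exact Submodule.add_mem _ hy hz
  · intro a z hz
    rw [map_smul]
    exact Submodule.smul_mem _ a hz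

theorem toFinset_of_ne {X : Finset α} {z : Wd α} (hz : z ∈ WS X) :
    ∀ u, z u ≠ 0 → u.toFinset = X := by
  refine WS_induction (p := fun z => ∀ u : List α, z u ≠ 0 → u.toFinset = X) hz ?_ ?_ ?_ ?_
  · intro v _ hX u hu
    unfold wd at hu
    rw [Finsupp.single_apply] at hu
    have h : v = u := by
      by_contra h
      exact hu (if_neg h)
    rw [← h]
    exact hX
  · intro u hu
    exact absurd (Finsupp.zero_apply) hu
  · intro y z hy hz u hu
    rw [Finsupp.add_apply] at hu
    by_cases h : y u = 0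
    · rw [h, zero_add] at hu
      exact hz u hu
    · exact hy u h
  · intro a z hz u hu
    rw [Finsupp.smul_apply] at hu
    refine hz u fun h => hu ?_
    rw [h, smul_zero]

theorem WN_of_pr {X : Finset α} (hX : X.Nonempty) {z : Wd α} (hz : z ∈ WS X)
    (h : ∀ E ∈ X, WN (pr E z)) : WN z := by
  intro u
  by_cases h0 : z u = 0
  · rw [h0]
  have h1 := toFinset_of_ne hz u h0
  rcases u with _ | ⟨E, u⟩
  · rw [← h1, List.toFinset_nil] at hX
    exact absurd hX Finset.not_nonempty_empty
  · have hE : E ∈ X := by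
      rw [← h1]
      exact List.mem_toFinset.2 List.mem_cons_self
    exact h E hE u

theorem rl_one (z : Wd α) : rl (1 : Perm α) z = z := by
  have h : (rl (1 : Perm α)) = LinearMap.id := by
    refine ext_wd _ _ fun u => ?_
    rw [rl_wd, LinearMap.id_apply]
    congr 1
    exact List.map_id u
  rw [h, LinearMap.id_apply]

theorem rl_congr {X : Finset α} (σ τ : Perm α) (h : ∀ x ∈ X, σ x = τ x) {z : Wd α}
    (hz : z ∈ WS X) : rl σ z = rl τ z := by
  refine WS_induction (p := fun z => rl σ z = rl τ z) hz ?_ ?_ ?_ ?_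
  · intro u _ hX
    rw [rl_wd, rl_wd]
    congr 1
    refine List.map_congr_left fun x hx => h x ?_
    rw [← hX]
    exact List.mem_toFinset.2 hx
  · rw [map_zero, map_zero]
  · intro y z hy hz
    rw [map_add, map_add, hy, hz]
  · intro a z hz
    rw [map_smul, map_smul, hz]

theorem rl_mem {X : Finset α} (σ : Perm α) {z : Wd α} (hz : z ∈ WS X) :
    rl σ z ∈ WS (X.map σ.toEmbedding) := by
  refine WS_induction (p := fun z => rl σ z ∈ WS (X.map σ.toEmbedding)) hz ?_ ?_ ?_ ?_
  · intro u hu hX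
    rw [rl_wd]
    refine wd_mem _ (hu.map σ.injective) ?_
    ext y
    simp only [List.mem_toFinset, List.mem_map, Finset.mem_map, ← hX]
    rfl
  · rw [map_zero]
    exact Submodule.zero_mem _
  · intro y z hy hz
    rw [map_add]
    exact Submodule.add_mem _ hy hz
  · intro a z hz
    rw [map_smul]
    exact Submodule.smul_mem _ a hz

theorem rl_gen {X : Finset α} (σ : Perm α) (S S' : Finset α) (h : ∀ x ∈ X, x ∈ S ↔ σ x ∈ S')
    (k : ℤ) {z : Wd α} (hz : z ∈ WS X) : rl σ (Hop S k z) = Hop S' k (rl σ z) := by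
  rw [rl_Hop]
  refine Hop_congr (X := X.map σ.toEmbedding) (fun y hy => ?_) k (rl_mem σ hz)
  obtain ⟨x, hx, rfl⟩ := Finset.mem_map.1 hy
  rw [Finset.mem_map' σ.toEmbedding]
  exact h x hx

/-- exchange of two letters of `X` -/
theorem rl_swap_mem {X : Finset α} {a b : α} (ha : a ∈ X) (hb : b ∈ X) {z : Wd α}
    (hz : z ∈ WS X) : rl (swap a b) z ∈ WS X := by
  have h : X.map (swap a b).toEmbedding = X := by
    ext y
    rw [Finset.mem_map]
    constructor
    · rintro ⟨x, hx, rfl⟩
      show swap a b x ∈ X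
      rw [swap_apply_def]
      split_ifs
      · exact hb
      · exact ha
      · exact hx
    · intro hy
      refine ⟨swap a b y, ?_, swap_apply_self a b y⟩
      rw [swap_apply_def]
      split_ifs
      · exact hb
      · exact ha
      · exact hy
  have h1 := rl_mem (swap a b) hz
  rwa [h] at h1

theorem WN_rl (σ : Perm α) {z : Wd α} (hz : WN z) : WN (rl σ z) := by
  intro u
  have hinj : Function.Injective (List.map σ) := List.map_injective_iff.2 σ.injective
  have h1 : u = List.map σ (List.map σ.symm u) := by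
    rw [List.map_map]
    have : (σ ∘ σ.symm : α → α) = id := by
      funext x
      exact σ.apply_symm_apply x
    rw [this, List.map_id]
  rw [h1]
  unfold rl
  rw [Finsupp.lmapDomain_apply, Finsupp.mapDomain_apply hinj]
  exact hz _

theorem WN_Hop {X : Finset α} (S : Finset α) (k : ℤ) {z : Wd α} (_ : z ∈ WS X) (hn : WN z) :
    WN (Hop S k z) := by
  unfold Hop
  rw [Finsupp.linearCombination_apply, Finsupp.sum]
  refine WN.sum _ _ fun u _ => ?_
  intro v
  rw [Finsupp.smul_apply, smul_eq_mul]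
  exact mul_nonneg (hn u) (WN_hop S u k v)

theorem pr_rl (E : α) (σ : Perm α) (z : Wd α) : pr E (rl σ z) = rl σ (pr (σ.symm E) z) := by
  have h : (pr E).comp (rl σ) = (rl σ).comp (pr (σ.symm E)) := by
    refine ext_wd _ _ fun u => ?_
    rw [LinearMap.comp_apply, LinearMap.comp_apply]
    rcases u with _ | ⟨q, u⟩
    · rw [rl_wd, List.map_nil, pr_nil, pr_nil, map_zero]
    · rw [rl_wd, List.map_cons, pr_wd_cons, pr_wd_cons]
      by_cases hE : E = σ q
      · rw [if_pos hE, if_pos (by rw [hE, σ.symm_apply_apply]), rl_wd]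
      · rw [if_neg hE, if_neg, map_zero]
        intro h
        exact hE (by rw [← h, σ.apply_symm_apply])
  exact congrArg (fun f : Wd α →ₗ[ℤ] Wd α => f z) h

theorem pr_Hop {Y : Finset α} {y : Wd α} (hy : y ∈ WS Y) {F : α} (hF : F ∈ Y) (S : Finset α)
    (k : ℤ) : pr F (Hop S k y) = Hop S k (pr F y) +
      if F ∈ S then 0 else ∑ G ∈ Y ∩ S, Hop S (k - 1) (rl (swap F G) (pr G y)) := by
  refine WS_induction (p := fun y => pr F (Hop S k y) = Hop S k (pr F y) +
      if F ∈ S then 0 else ∑ G ∈ Y ∩ S, Hop S (k - 1) (rl (swap F G) (pr G y))) hy ?_ ?_ ?_ ?_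
  · intro u hu hX
    rcases u with _ | ⟨q, u⟩
    · rw [List.toFinset_nil] at hX
      rw [← hX] at hF
      exact absurd hF (Finset.notMem_empty _)
    obtain ⟨hq, hu'⟩ := List.nodup_cons.1 hu
    have hz : wd u ∈ WS u.toFinset := wd_mem u hu' rfl
    have hYq : ∀ x, x ∈ Y ↔ x = q ∨ x ∈ u := by
      intro x
      rw [← hX, List.toFinset_cons, Finset.mem_insert, List.mem_toFinset]
    rw [← cns_wd, Hop_cns S k q u.toFinset (wd u) hz, map_add, pr_cns, pr_cns]
    congr 1
    · split_ifs
      · rfl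
      · rw [map_zero]
    · have hR : ∑ G ∈ Y ∩ S, Hop S (k - 1) (rl (swap F G) (pr G (cns q (wd u)))) =
          if q ∈ S then Hop S (k - 1) (rl (swap F q) (wd u)) else 0 := by
        have e1 : ∀ G ∈ Y ∩ S, Hop S (k - 1) (rl (swap F G) (pr G (cns q (wd u)))) =
            if G = q then Hop S (k - 1) (rl (swap F q) (wd u)) else 0 := by
          intro G _
          rw [pr_cns]
          split_ifs with h
          · rw [h]
          · rw [map_zero, map_zero]
        rw [Finset.sum_congr rfl e1, Finset.sum_ite_eq']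
        have e2 : q ∈ Y ∩ S ↔ q ∈ S := by
          rw [Finset.mem_inter]
          exact ⟨fun h => h.2, fun h => ⟨(hYq q).2 (Or.inl rfl), h⟩⟩
        by_cases h : q ∈ S
        · rw [if_pos (e2.2 h), if_pos h]
        · rw [if_neg fun h' => h (e2.1 h'), if_neg h]
      rw [hR]
      by_cases hqS : q ∈ S
      · rw [if_pos hqS, if_pos hqS, map_sum]
        have e3 : ∀ D ∈ u.toFinset \ S, pr F (cns D (Hop S (k - 1) (rl (swap D q) (wd u)))) =
            if D = F then Hop S (k - 1) (rl (swap F q) (wd u)) else 0 := by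
          intro D _
          rw [pr_cns]
          by_cases h : F = D
          · rw [if_pos h, if_pos h.symm, h]
          · rw [if_neg h, if_neg (Ne.symm h)]
        rw [Finset.sum_congr rfl e3, Finset.sum_ite_eq']
        by_cases hFS : F ∈ S
        · rw [if_pos hFS, if_neg fun h => (Finset.mem_sdiff.1 h).2 hFS]
        · rw [if_neg hFS, if_pos]
          rw [Finset.mem_sdiff, List.mem_toFinset]
          refine ⟨?_, hFS⟩
          rcases (hYq F).1 hF with h | h
          · exact absurd (h ▸ hqS) hFS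
          · exact h
      · rw [if_neg hqS, if_neg hqS, map_zero]
        split_ifs <;> rfl
  · simp only [map_zero, Finset.sum_const_zero, ite_self, add_zero]
  · intro y z hy hz
    simp only [map_add]
    rw [hy, hz]
    split_ifs
    · abel
    · rw [Finset.sum_add_distrib]
      abel
  · intro a z hz
    simp only [map_smul]
    rw [hz, smul_add]
    split_ifs
    · rw [smul_zero]
    · rw [Finset.smul_sum]

theorem pr_Hop_self {X : Finset α} {h : α} (hh : h ∉ X) (S : Finset α) (k : ℤ) {z : Wd α}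
    (hz : z ∈ WS X) : pr h (Hop S k (cns h z)) = Hop S k z := by
  rw [pr_Hop (cns_mem hh hz) (Finset.mem_insert_self h X), pr_cns, if_pos rfl]
  split_ifs with hS
  · rw [add_zero]
  · rw [Finset.sum_eq_zero, add_zero]
    intro G hG
    rw [pr_cns, if_neg, map_zero, map_zero]
    rintro rfl
    exact hS (Finset.mem_inter.1 hG).2

theorem pr_Hop_ne {X : Finset α} {h E : α} (hh : h ∉ X) (hE : E ∈ X) (S : Finset α) (k : ℤ)
    {z : Wd α} (hz : z ∈ WS X) : pr E (Hop S k (cns h z)) =
      if h ∈ S ∧ E ∉ S then Hop S (k - 1) (rl (swap E h) z) else 0 := by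
  have hEh : E ≠ h := fun h' => hh (h' ▸ hE)
  rw [pr_Hop (cns_mem hh hz) (Finset.mem_insert_of_mem hE), pr_cns, if_neg hEh, map_zero, zero_add]
  have e1 : ∀ G ∈ insert h X ∩ S, Hop S (k - 1) (rl (swap E G) (pr G (cns h z))) =
      if G = h then Hop S (k - 1) (rl (swap E h) z) else 0 := by
    intro G _
    rw [pr_cns]
    split_ifs with h1
    · rw [h1]
    · rw [map_zero, map_zero]
  rw [Finset.sum_congr rfl e1, Finset.sum_ite_eq']
  have e2 : h ∈ insert h X ∩ S ↔ h ∈ S := by
    rw [Finset.mem_inter]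
    exact ⟨fun h => h.2, fun h1 => ⟨Finset.mem_insert_self h X, h1⟩⟩
  by_cases h1 : E ∈ S
  · rw [if_pos h1, if_neg fun h2 => h2.2 h1]
  · rw [if_neg h1]
    by_cases h2 : h ∈ S
    · rw [if_pos (e2.2 h2), if_pos ⟨h2, h1⟩]
    · rw [if_neg fun h3 => h2 (e2.1 h3), if_neg fun h3 => h2 h3.1]

private theorem sum_sd {X A B : Finset α} (P : Prop) [Decidable P] (f : α → Wd α) :
    ∑ G ∈ X ∩ A, (if P ∧ G ∉ B then f G else 0) =
      if P then ∑ G ∈ (X ∩ A) \ B, f G else 0 := by
  by_cases h : P
  · rw [if_pos h, Finset.sdiff_eq_filter, Finset.sum_filter]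
    refine Finset.sum_congr rfl fun G _ => ?_
    by_cases hG : G ∈ B
    · rw [if_neg fun h1 => h1.2 hG, if_neg (not_not.2 hG)]
    · rw [if_pos ⟨h, hG⟩, if_pos hG]
  · rw [if_neg h]
    refine Finset.sum_eq_zero fun G _ => ?_
    rw [if_neg fun h1 => h h1.1]

theorem pr_two_self {X : Finset α} {h : α} (hh : h ∉ X) (A B : Finset α) (a b : ℤ) {z : Wd α}
    (hz : z ∈ WS X) : pr h (Hop A a (Hop B b (cns h z))) = Hop A a (Hop B b z) +
      if h ∉ A ∧ h ∈ B then ∑ G ∈ (X ∩ A) \ B,
        Hop A (a - 1) (rl (swap h G) (Hop B (b - 1) (rl (swap G h) z))) else 0 := by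
  rw [pr_Hop (Hop_mem B b (cns_mem hh hz)) (Finset.mem_insert_self h X), pr_Hop_self hh B b hz]
  congr 1
  by_cases hA : h ∈ A
  · rw [if_pos hA, if_neg fun h1 => h1.1 hA]
  · rw [if_neg hA]
    have e1 : insert h X ∩ A = X ∩ A := by
      rw [Finset.insert_inter_of_notMem hA]
    rw [e1]
    have e2 : ∀ G ∈ X ∩ A, Hop A (a - 1) (rl (swap h G) (pr G (Hop B b (cns h z)))) =
        if h ∈ B ∧ G ∉ B then
          Hop A (a - 1) (rl (swap h G) (Hop B (b - 1) (rl (swap G h) z))) else 0 := by
      intro G hG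
      rw [pr_Hop_ne hh (Finset.mem_inter.1 hG).1 B b hz]
      split_ifs
      · rfl
      · rw [map_zero, map_zero]
    rw [Finset.sum_congr rfl e2, sum_sd]
    by_cases hB : h ∈ B
    · rw [if_pos hB, if_pos ⟨hA, hB⟩]
    · rw [if_neg hB, if_neg fun h1 => hB h1.2]

theorem pr_two_ne {X : Finset α} {h E : α} (hh : h ∉ X) (hE : E ∈ X) (A B : Finset α) (a b : ℤ)
    {z : Wd α} (hz : z ∈ WS X) : pr E (Hop A a (Hop B b (cns h z))) =
      (if h ∈ A ∧ E ∉ A then Hop A (a - 1) (rl (swap E h) (Hop B b z)) else 0) +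
      (if h ∈ B ∧ E ∉ B then Hop A a (Hop B (b - 1) (rl (swap E h) z)) else 0) +
      if h ∈ B ∧ E ∉ A then ∑ G ∈ (X ∩ A) \ B,
        Hop A (a - 1) (rl (swap E G) (Hop B (b - 1) (rl (swap G h) z))) else 0 := by
  rw [pr_Hop (Hop_mem B b (cns_mem hh hz)) (Finset.mem_insert_of_mem hE), pr_Hop_ne hh hE B b hz]
  have e0 : Hop A a (if h ∈ B ∧ E ∉ B then Hop B (b - 1) (rl (swap E h) z) else 0) =
      if h ∈ B ∧ E ∉ B then Hop A a (Hop B (b - 1) (rl (swap E h) z)) else 0 := by
    split_ifs
    · rfl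
    · rw [map_zero]
  rw [e0, add_comm (if h ∈ A ∧ E ∉ A then _ else _) (if h ∈ B ∧ E ∉ B then _ else _), add_assoc]
  congr 1
  have e2 : ∀ G ∈ X ∩ A, Hop A (a - 1) (rl (swap E G) (pr G (Hop B b (cns h z)))) =
      if h ∈ B ∧ G ∉ B then
        Hop A (a - 1) (rl (swap E G) (Hop B (b - 1) (rl (swap G h) z))) else 0 := by
    intro G hG
    rw [pr_Hop_ne hh (Finset.mem_inter.1 hG).1 B b hz]
    split_ifs
    · rfl
    · rw [map_zero, map_zero]
  by_cases hEA : E ∈ A
  · rw [if_pos hEA, if_neg fun h1 => h1.2 hEA, if_neg fun h1 => h1.2 hEA, add_zero]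
  rw [if_neg hEA]
  by_cases hA : h ∈ A
  · rw [if_pos ⟨hA, hEA⟩, Finset.insert_inter_of_mem hA, Finset.sum_insert
      (fun h1 => hh (Finset.mem_inter.1 h1).1), pr_Hop_self hh B b hz, Finset.sum_congr rfl e2,
      sum_sd]
    congr 1
    by_cases hB : h ∈ B
    · rw [if_pos hB, if_pos ⟨hB, hEA⟩]
    · rw [if_neg hB, if_neg fun h1 => hB h1.1]
  · rw [if_neg fun h1 => hA h1.1, zero_add, Finset.insert_inter_of_notMem hA,
      Finset.sum_congr rfl e2, sum_sd]
    by_cases hB : h ∈ B
    · rw [if_pos hB, if_pos ⟨hB, hEA⟩]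
    · rw [if_neg hB, if_neg fun h1 => hB h1.1]

end H50R
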